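import Pool.Agent.REG.Final

namespace Pool.Agent.Results.MP_6a31e5_al.PowerFormula

open Pool.Agent.REG

/-- For every field `k`, every graph `G` on `Fin n` with an edge and every `q ≥ 1`, with
`I = I(G)`: the regularity of `I ^ q` exists, it equals `max (reg I + q - 1) (2 q + ρ)` where `ρ` is
the maximum over the edges `e` of `reg S/I(G - N[e])`, and `reg I ^ (q + 1) ≤ reg I ^ q + 2`. -/
theorem result : ∀ (k : Type) [Field k] (n : ℕ) (G : SimpleGraph (Fin n)),
    (∃ u v, G.Adj u v) → ∀ q : ℕ, 1 ≤ q →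
      (∃ r, RegLE k (edgeIdeal k n G ^ q) r) ∧
      reg k (edgeIdeal k n G ^ q) =
        max (reg k (edgeIdeal k n G) + (q - 1)) (2 * q + rho k G) ∧
      reg k (edgeIdeal k n G ^ (q + 1)) ≤ reg k (edgeIdeal k n G ^ q) + 2 := by
  intro k _ n G hG q hq
  refine ⟨⟨_, (regLE_pow_iff' G hG hq _).mpr le_rfl⟩, reg_pow G hG hq, ?_⟩
  rw [reg_pow G hG hq, reg_pow G hG (by omega : 1 ≤ q + 1)]
  omega

end Pool.Agent.Results.MP_6a31e5_al.PowerFormula
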